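import Mathlib

set_option autoImplicit false

/-!
Noncommutative elementary symmetric sums: sums of the products `A (j 0) * ⋯ * A (j (m-1))` over all
`m`-tuples `j` of pairwise distinct indices.
-/

namespace Pool.Agent.H11R3.RechtRe

open Finset

variable {ι R : Type*} [Ring R]

/-- `S m A`: the sum of `A (j 0) * ⋯ * A (j (m - 1))` over all injective `j : Fin m → ι`. -/
noncomputable def S [Fintype ι] (m : ℕ) (A : ι → R) : R :=
  ∑ j : Fin m ↪ ι, (List.ofFn fun i => A (j i)).prod

/-- the recursive form of `S` over a finite set of indices -/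
def P [DecidableEq ι] (A : ι → R) : ℕ → Finset ι → R
  | 0, _ => 1
  | m + 1, s => ∑ i ∈ s, A i * P A m (s.erase i)

lemma P_succ [DecidableEq ι] (A : ι → R) (m : ℕ) (s : Finset ι) :
    P A (m + 1) s = ∑ i ∈ s, A i * P A m (s.erase i) := rfl

lemma sum_inj_eq_P [Fintype ι] [DecidableEq ι] (A : ι → R) (m : ℕ) (s : Finset ι) :
    (∑ f : Fin m → ι, if (Function.Injective f ∧ ∀ k, f k ∈ s) then
      (List.ofFn fun i => A (f i)).prod else 0) = P A m s := by
  induction m generalizing s with
  | zero =>
      rw [Fintype.sum_unique]
      have h : Function.Injective (default : Fin 0 → ι) ∧ ∀ k, (default : Fin 0 → ι) k ∈ s :=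
        ⟨fun x => x.elim0, fun k => k.elim0⟩
      rw [if_pos h]
      simp [P]
  | succ m ih =>
      rw [P_succ, ← (Fin.consEquiv (fun _ : Fin (m + 1) => ι)).sum_comp, Fintype.sum_prod_type]
      have hs : ∑ i ∈ s, A i * P A m (s.erase i) =
          ∑ i : ι, if i ∈ s then A i * P A m (s.erase i) else 0 := by
        rw [Finset.sum_ite_mem, Finset.univ_inter]
      rw [hs]
      refine Finset.sum_congr rfl fun i _ => ?_
      by_cases hi : i ∈ s
      · rw [if_pos hi, ← ih (s.erase i), Finset.mul_sum]
        refine Finset.sum_congr rfl fun g _ => ?_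
        have hcons : (Fin.consEquiv fun _ : Fin (m + 1) => ι) (i, g) = Fin.cons i g := rfl
        rw [hcons]
        have hiff : (Function.Injective (Fin.cons i g : Fin (m + 1) → ι) ∧
            ∀ k, (Fin.cons i g : Fin (m + 1) → ι) k ∈ s) ↔
            (Function.Injective g ∧ ∀ k, g k ∈ s.erase i) := by
          rw [Fin.cons_injective_iff]
          constructor
          · rintro ⟨⟨h1, h2⟩, h3⟩
            refine ⟨h2, fun k => Finset.mem_erase.2 ⟨?_, ?_⟩⟩
            · intro h
              exact h1 ⟨k, h⟩
            · have := h3 k.succ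
              rwa [Fin.cons_succ] at this
          · rintro ⟨h1, h2⟩
            refine ⟨⟨?_, h1⟩, ?_⟩
            · rintro ⟨k, hk⟩
              exact (Finset.mem_erase.1 (h2 k)).1 hk
            · intro k
              refine Fin.cases ?_ (fun k => ?_) k
              · rwa [Fin.cons_zero]
              · rw [Fin.cons_succ]
                exact (Finset.mem_erase.1 (h2 k)).2
        by_cases hc : Function.Injective g ∧ ∀ k, g k ∈ s.erase i
        · rw [if_pos hc, if_pos (hiff.2 hc), List.ofFn_succ, List.prod_cons]
          simp
        · rw [if_neg hc, if_neg (fun h => hc (hiff.1 h)), mul_zero]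
      · rw [if_neg hi]
        refine Finset.sum_eq_zero fun g _ => ?_
        rw [if_neg]
        rintro ⟨-, h⟩
        exact hi (h 0)

lemma S_eq_P [Fintype ι] [DecidableEq ι] (m : ℕ) (A : ι → R) : S m A = P A m univ := by
  classical
  rw [← sum_inj_eq_P, ← Finset.sum_filter]
  unfold S
  refine Finset.sum_bij (fun (j : Fin m ↪ ι) _ => (j : Fin m → ι)) ?_ ?_ ?_ ?_
  · intro j _
    simp [j.injective]
  · intro j _ j' _ h
    exact DFunLike.coe_injective h
  · intro f hf
    rw [Finset.mem_filter] at hf
    exact ⟨⟨f, hf.2.1⟩, Finset.mem_univ _, rfl⟩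
  · intro j _
    rfl

lemma map_P {R' : Type*} [Ring R'] [DecidableEq ι] (φ : R →+* R') (A : ι → R) (m : ℕ)
    (s : Finset ι) : P (fun i => φ (A i)) m s = φ (P A m s) := by
  induction m generalizing s with
  | zero => simp [P]
  | succ m ih =>
      rw [P_succ, P_succ, map_sum]
      refine Finset.sum_congr rfl fun i _ => ?_
      rw [ih, map_mul]

/-- `P` along an embedding of index sets -/
lemma P_map {κ : Type*} [DecidableEq ι] [DecidableEq κ] (A : ι → R) (g : κ ↪ ι) (m : ℕ)
    (s : Finset κ) : P A m (s.map g) = P (fun k => A (g k)) m s := by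
  induction m generalizing s with
  | zero => simp [P]
  | succ m ih =>
      rw [P_succ, P_succ, Finset.sum_map]
      refine Finset.sum_congr rfl fun i _ => ?_
      rw [← Finset.map_erase, ih]

lemma P_congr [DecidableEq ι] (A B : ι → R) (m : ℕ) (s : Finset ι) (h : ∀ i ∈ s, A i = B i) :
    P A m s = P B m s := by
  induction m generalizing s with
  | zero => simp [P]
  | succ m ih =>
      rw [P_succ, P_succ]
      refine Finset.sum_congr rfl fun i hi => ?_
      rw [ih _ (fun k hk => h k (Finset.mem_erase.1 hk).2), h i hi]

lemma commute_P [DecidableEq ι] (A : ι → R) (x : R) (m : ℕ) (s : Finset ι)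
    (h : ∀ i ∈ s, Commute x (A i)) : Commute x (P A m s) := by
  induction m generalizing s with
  | zero => exact Commute.one_right x
  | succ m ih =>
      rw [P_succ]
      exact Commute.sum_right _ _ _ fun i hi =>
        (h i hi).mul_right (ih _ fun k hk => h k (Finset.mem_erase.1 hk).2)

/-- If the `A i` with `i ∈ s` commute with the `A j` with `j ∈ t`, then the sum over all orderings
of `s ∪ t` is a binomial coefficient times the product of the two separate sums. -/
lemma P_union [DecidableEq ι] (A : ι → R) (N : ℕ) : ∀ (s t : Finset ι), s.card + t.card = N →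
    Disjoint s t → (∀ i ∈ s, ∀ j ∈ t, Commute (A j) (A i)) →
    P A N (s ∪ t) = (N.choose s.card : R) * (P A s.card s * P A t.card t) := by
  induction N with
  | zero =>
      intro s t hc _ _
      have h1 : s.card = 0 := by omega
      have h2 : t.card = 0 := by omega
      rw [h1, h2]
      simp [P]
  | succ N ih =>
      intro s t hc hd hcom
      have hcs : ∀ i ∈ s, P A N ((s ∪ t).erase i) =
          (N.choose (s.card - 1) : R) * (P A (s.card - 1) (s.erase i) * P A t.card t) := by
        intro i hi
        have hit : i ∉ t := Finset.disjoint_left.1 hd hi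
        have hpos : 0 < s.card := Finset.card_pos.2 ⟨i, hi⟩
        have e : (s ∪ t).erase i = s.erase i ∪ t := by
          rw [Finset.erase_union_distrib, Finset.erase_eq_of_notMem hit]
        rw [e, ih (s.erase i) t (by rw [Finset.card_erase_of_mem hi]; omega)
          (Finset.disjoint_of_subset_left (Finset.erase_subset _ _) hd)
          (fun k hk j hj => hcom k (Finset.mem_erase.1 hk).2 j hj),
          Finset.card_erase_of_mem hi]
      have hct : ∀ j ∈ t, P A N ((s ∪ t).erase j) =
          (N.choose s.card : R) * (P A s.card s * P A (t.card - 1) (t.erase j)) := by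
        intro j hj
        have hjs : j ∉ s := Finset.disjoint_right.1 hd hj
        have hpos : 0 < t.card := Finset.card_pos.2 ⟨j, hj⟩
        have e : (s ∪ t).erase j = s ∪ t.erase j := by
          rw [Finset.erase_union_distrib, Finset.erase_eq_of_notMem hjs]
        rw [e, ih s (t.erase j) (by rw [Finset.card_erase_of_mem hj]; omega)
          (Finset.disjoint_of_subset_right (Finset.erase_subset _ _) hd)
          (fun k hk j' hj' => hcom k hk j' (Finset.mem_erase.1 hj').2),
          Finset.card_erase_of_mem hj]
      rw [P_succ, Finset.sum_union hd]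
      have h1 : ∑ i ∈ s, A i * P A N ((s ∪ t).erase i) =
          (if s.card = 0 then 0 else (N.choose (s.card - 1) : R)) *
            (P A s.card s * P A t.card t) := by
        rcases Nat.eq_zero_or_pos s.card with h0 | h0
        · rw [if_pos h0, zero_mul]
          rw [Finset.card_eq_zero] at h0
          rw [h0]; simp
        · rw [if_neg h0.ne']
          obtain ⟨c, hc'⟩ : ∃ c, s.card = c + 1 := ⟨s.card - 1, by omega⟩
          have hP : P A s.card s = ∑ i ∈ s, A i * P A c (s.erase i) := by
            rw [hc', P_succ]
          have hc1 : s.card - 1 = c := by omega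
          rw [hP, Finset.sum_mul, Finset.mul_sum]
          refine Finset.sum_congr rfl fun i hi => ?_
          rw [hcs i hi, hc1, (Nat.cast_commute (N.choose c) (A i)).symm.left_comm, mul_assoc (A i)]
      have h2 : ∑ j ∈ t, A j * P A N ((s ∪ t).erase j) =
          (if t.card = 0 then 0 else (N.choose s.card : R)) *
            (P A s.card s * P A t.card t) := by
        rcases Nat.eq_zero_or_pos t.card with h0 | h0
        · rw [if_pos h0, zero_mul]
          rw [Finset.card_eq_zero] at h0
          rw [h0]; simp
        · rw [if_neg h0.ne']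
          obtain ⟨c, hc'⟩ : ∃ c, t.card = c + 1 := ⟨t.card - 1, by omega⟩
          have hP : P A t.card t = ∑ i ∈ t, A i * P A c (t.erase i) := by
            rw [hc', P_succ]
          have hc1 : t.card - 1 = c := by omega
          rw [hP, Finset.mul_sum, Finset.mul_sum]
          refine Finset.sum_congr rfl fun j hj => ?_
          have hcomm : Commute (A j) (P A s.card s) :=
            commute_P A (A j) _ s fun i hi => hcom i hi j hj
          rw [hct j hj, hc1, (Nat.cast_commute (N.choose s.card) (A j)).symm.left_comm,
            hcomm.left_comm]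
      rw [h1, h2, ← add_mul]
      congr 1
      by_cases hs0 : s.card = 0
      · rw [if_pos hs0, hs0]
        have ht0 : t.card ≠ 0 := by omega
        rw [if_neg ht0]
        simp
      · rw [if_neg hs0]
        obtain ⟨c, hc'⟩ : ∃ c, s.card = c + 1 := ⟨s.card - 1, by omega⟩
        by_cases ht0 : t.card = 0
        · rw [if_pos ht0, hc', add_zero]
          have : N = c := by omega
          rw [this]
          simp
        · rw [if_neg ht0, hc', Nat.choose_succ_succ, Nat.cast_add, Nat.add_sub_cancel]

end Pool.Agent.H11R3.RechtRe
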