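import Mathlib
import Pool.Agent.H11R3.RechtRe.Sym

set_option autoImplicit false

/-!
Systems of positive semidefinite matrices with a prescribed eigenvalue of the sum over all
orderings, and their tensor products.
-/

namespace Pool.Agent.H11R3.RechtRe

open Matrix Finset
open scoped Nat Kronecker

/-- there are `n` positive semidefinite matrices with sum at most `n I` for which the sum over all
orderings has the eigenvalue `lam * n!` -/
def Sys (n : ℕ) (lam : ℝ) : Prop :=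
  ∃ (d : ℕ) (A : Fin n → Matrix (Fin d) (Fin d) ℝ) (v : Fin d → ℝ), 1 ≤ d ∧ v ≠ 0 ∧
    (∀ i, (A i).PosSemidef) ∧ ((n : ℝ) • (1 : Matrix (Fin d) (Fin d) ℝ) - ∑ i, A i).PosSemidef ∧
    S n A *ᵥ v = (lam * (n ! : ℝ)) • v

section tensor

variable (d d' : ℕ)

/-- the embedding `X ↦ X ⊗ 1` into the matrices of size `d * d'` -/
noncomputable def φ1 : Matrix (Fin d) (Fin d) ℝ →+* Matrix (Fin (d * d')) (Fin (d * d')) ℝ where
  toFun X := (X ⊗ₖ (1 : Matrix (Fin d') (Fin d') ℝ)).submatrix finProdFinEquiv.symm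
    finProdFinEquiv.symm
  map_one' := by
    rw [Matrix.one_kronecker_one, Matrix.submatrix_one_equiv]
  map_mul' X Y := by
    rw [Matrix.submatrix_mul_equiv, ← Matrix.mul_kronecker_mul, Matrix.mul_one]
  map_zero' := by
    rw [Matrix.zero_kronecker, Matrix.submatrix_zero]
    rfl
  map_add' X Y := by
    rw [Matrix.add_kronecker, Matrix.submatrix_add]
    rfl

/-- the embedding `Y ↦ 1 ⊗ Y` into the matrices of size `d * d'` -/
noncomputable def φ2 : Matrix (Fin d') (Fin d') ℝ →+* Matrix (Fin (d * d')) (Fin (d * d')) ℝ where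
  toFun Y := ((1 : Matrix (Fin d) (Fin d) ℝ) ⊗ₖ Y).submatrix finProdFinEquiv.symm
    finProdFinEquiv.symm
  map_one' := by
    rw [Matrix.one_kronecker_one, Matrix.submatrix_one_equiv]
  map_mul' X Y := by
    rw [Matrix.submatrix_mul_equiv, ← Matrix.mul_kronecker_mul, Matrix.mul_one]
  map_zero' := by
    rw [Matrix.kronecker_zero, Matrix.submatrix_zero]
    rfl
  map_add' X Y := by
    rw [Matrix.kronecker_add, Matrix.submatrix_add]
    rfl

variable {d d'}

lemma φ1_mul_φ2 (X : Matrix (Fin d) (Fin d) ℝ) (Y : Matrix (Fin d') (Fin d') ℝ) :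
    φ1 d d' X * φ2 d d' Y = (X ⊗ₖ Y).submatrix finProdFinEquiv.symm finProdFinEquiv.symm := by
  change (X ⊗ₖ (1 : Matrix (Fin d') (Fin d') ℝ)).submatrix _ _ *
    ((1 : Matrix (Fin d) (Fin d) ℝ) ⊗ₖ Y).submatrix _ _ = _
  rw [Matrix.submatrix_mul_equiv, ← Matrix.mul_kronecker_mul, Matrix.mul_one, Matrix.one_mul]

lemma φ2_mul_φ1 (X : Matrix (Fin d) (Fin d) ℝ) (Y : Matrix (Fin d') (Fin d') ℝ) :
    φ2 d d' Y * φ1 d d' X = (X ⊗ₖ Y).submatrix finProdFinEquiv.symm finProdFinEquiv.symm := by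
  change ((1 : Matrix (Fin d) (Fin d) ℝ) ⊗ₖ Y).submatrix _ _ *
    (X ⊗ₖ (1 : Matrix (Fin d') (Fin d') ℝ)).submatrix _ _ = _
  rw [Matrix.submatrix_mul_equiv, ← Matrix.mul_kronecker_mul, Matrix.mul_one, Matrix.one_mul]

lemma φ1_psd {X : Matrix (Fin d) (Fin d) ℝ} (h : X.PosSemidef) : (φ1 d d' X).PosSemidef :=
  (h.kronecker Matrix.PosSemidef.one).submatrix _

lemma φ2_psd {Y : Matrix (Fin d') (Fin d') ℝ} (h : Y.PosSemidef) : (φ2 d d' Y).PosSemidef :=
  (Matrix.PosSemidef.one.kronecker h).submatrix _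

lemma kron_mulVec (X : Matrix (Fin d) (Fin d) ℝ) (Y : Matrix (Fin d') (Fin d') ℝ)
    (v : Fin d → ℝ) (w : Fin d' → ℝ) :
    (X ⊗ₖ Y) *ᵥ (fun p : Fin d × Fin d' => v p.1 * w p.2) =
      fun p => (X *ᵥ v) p.1 * (Y *ᵥ w) p.2 := by
  funext p
  simp only [Matrix.mulVec, dotProduct, Matrix.kroneckerMap_apply]
  rw [Fintype.sum_prod_type, Finset.sum_mul_sum]
  refine Finset.sum_congr rfl fun i _ => Finset.sum_congr rfl fun j _ => ?_
  ring

end tensor

lemma Sys.mul {n n' : ℕ} {lam lam' : ℝ} (h : Sys n lam) (h' : Sys n' lam') :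
    Sys (n + n') (lam * lam') := by
  obtain ⟨d, A, v, hd, hv, hA, hA', hS⟩ := h
  obtain ⟨d', B, w, hd', hw, hB, hB', hS'⟩ := h'
  set C : Fin (n + n') → Matrix (Fin (d * d')) (Fin (d * d')) ℝ :=
    Fin.append (fun i => φ1 d d' (A i)) (fun j => φ2 d d' (B j)) with hC
  set e : Fin d × Fin d' ≃ Fin (d * d') := finProdFinEquiv with he
  refine ⟨d * d', C, fun k => v (e.symm k).1 * w (e.symm k).2, Nat.mul_pos hd hd', ?_, ?_, ?_, ?_⟩
  · obtain ⟨i, hi⟩ := Function.ne_iff.1 hv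
    obtain ⟨j, hj⟩ := Function.ne_iff.1 hw
    rw [Function.ne_iff]
    refine ⟨e (i, j), ?_⟩
    simp only [Equiv.symm_apply_apply, Pi.zero_apply]
    exact mul_ne_zero hi hj
  · intro i
    refine Fin.addCases (fun i => ?_) (fun j => ?_) i
    · rw [hC, Fin.append_left]; exact φ1_psd (hA i)
    · rw [hC, Fin.append_right]; exact φ2_psd (hB j)
  · have e1 : (((n + n' : ℕ) : ℝ) • (1 : Matrix (Fin (d * d')) (Fin (d * d')) ℝ) - ∑ i, C i) =
        φ1 d d' ((n : ℝ) • (1 : Matrix (Fin d) (Fin d) ℝ) - ∑ i, A i) +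
          φ2 d d' ((n' : ℝ) • (1 : Matrix (Fin d') (Fin d') ℝ) - ∑ i, B i) := by
      rw [map_sub, map_sub, map_sum, map_sum, Fin.sum_univ_add]
      have h1 : φ1 d d' ((n : ℝ) • (1 : Matrix (Fin d) (Fin d) ℝ)) =
          (n : ℝ) • (1 : Matrix (Fin (d * d')) (Fin (d * d')) ℝ) := by
        rw [Nat.cast_smul_eq_nsmul, map_nsmul, map_one, ← Nat.cast_smul_eq_nsmul ℝ]
      have h2 : φ2 d d' ((n' : ℝ) • (1 : Matrix (Fin d') (Fin d') ℝ)) =
          (n' : ℝ) • (1 : Matrix (Fin (d * d')) (Fin (d * d')) ℝ) := by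
        rw [Nat.cast_smul_eq_nsmul, map_nsmul, map_one, ← Nat.cast_smul_eq_nsmul ℝ]
      rw [h1, h2]
      simp only [hC, Fin.append_left, Fin.append_right]
      push_cast
      rw [add_smul]
      abel
    rw [e1]
    exact (φ1_psd hA').add (φ2_psd hB')
  · -- the sum over all orderings
    set s : Finset (Fin (n + n')) := univ.map (Fin.castAddEmb n') with hs
    set t : Finset (Fin (n + n')) := univ.map (Fin.natAddEmb n) with ht
    have hsc : s.card = n := by rw [hs, Finset.card_map, Finset.card_fin]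
    have htc : t.card = n' := by rw [ht, Finset.card_map, Finset.card_fin]
    have hst : s ∪ t = univ := by
      ext i
      simp only [Finset.mem_union, Finset.mem_univ, iff_true]
      refine Fin.addCases (fun i => ?_) (fun j => ?_) i
      · left
        rw [hs, Finset.mem_map]
        exact ⟨i, Finset.mem_univ _, rfl⟩
      · right
        rw [ht, Finset.mem_map]
        exact ⟨j, Finset.mem_univ _, rfl⟩
    have hdisj : Disjoint s t := by
      rw [Finset.disjoint_left]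
      intro i hi hj
      rw [hs, Finset.mem_map] at hi
      rw [ht, Finset.mem_map] at hj
      obtain ⟨a, -, ha⟩ := hi
      obtain ⟨b, -, hb⟩ := hj
      have h1 : i.val = a.val := by rw [← ha]; rfl
      have h2 : i.val = n + b.val := by rw [← hb]; rfl
      have := a.isLt
      omega
    have hPs : P C n s = φ1 d d' (S n A) := by
      rw [hs, P_map, S_eq_P, ← map_P]
      refine P_congr _ _ _ _ fun i _ => ?_
      change C (Fin.castAdd n' i) = _
      rw [hC, Fin.append_left]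
    have hPt : P C n' t = φ2 d d' (S n' B) := by
      rw [ht, P_map, S_eq_P, ← map_P]
      refine P_congr _ _ _ _ fun i _ => ?_
      change C (Fin.natAdd n i) = _
      rw [hC, Fin.append_right]
    have hcomm : ∀ i ∈ s, ∀ j ∈ t, Commute (C j) (C i) := by
      intro i hi j hj
      rw [hs, Finset.mem_map] at hi
      rw [ht, Finset.mem_map] at hj
      obtain ⟨a, -, ha⟩ := hi
      obtain ⟨b, -, hb⟩ := hj
      have h1 : C i = φ1 d d' (A a) := by
        rw [← ha]
        change C (Fin.castAdd n' a) = _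
        rw [hC, Fin.append_left]
      have h2 : C j = φ2 d d' (B b) := by
        rw [← hb]
        change C (Fin.natAdd n b) = _
        rw [hC, Fin.append_right]
      rw [h1, h2]
      exact (φ2_mul_φ1 _ _).trans (φ1_mul_φ2 _ _).symm
    have hmain : S (n + n') C = (((n + n').choose n : ℕ) : Matrix (Fin (d * d')) (Fin (d * d')) ℝ) *
        ((S n A) ⊗ₖ (S n' B)).submatrix e.symm e.symm := by
      rw [S_eq_P, ← hst, P_union C (n + n') s t (by rw [hsc, htc]) hdisj hcomm, hsc, htc, hPs, hPt,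
        φ1_mul_φ2]
    rw [hmain, ← Matrix.mulVec_mulVec]
    have hvec : ((S n A) ⊗ₖ (S n' B)).submatrix e.symm e.symm *ᵥ
        (fun k => v (e.symm k).1 * w (e.symm k).2) =
        ((lam * n !) * (lam' * n' !)) • (fun k => v (e.symm k).1 * w (e.symm k).2) := by
      have h1 : (fun k => v (e.symm k).1 * w (e.symm k).2) =
          (fun p : Fin d × Fin d' => v p.1 * w p.2) ∘ e.symm := rfl
      rw [h1, Matrix.submatrix_mulVec_equiv]
      have h2 : ((fun p : Fin d × Fin d' => v p.1 * w p.2) ∘ e.symm) ∘ e.symm.symm =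
          (fun p : Fin d × Fin d' => v p.1 * w p.2) := by
        funext p
        simp
      rw [h2, kron_mulVec, hS, hS']
      funext k
      simp only [Function.comp, Pi.smul_apply, smul_eq_mul]
      ring
    rw [hvec, Matrix.mulVec_smul, Matrix.natCast_mulVec, smul_smul]
    congr 1
    have hch : (((n + n').choose n : ℕ) : ℝ) * (n ! : ℝ) * (n' ! : ℝ) = ((n + n')! : ℝ) := by
      have := Nat.choose_mul_factorial_mul_factorial (Nat.le_add_right n n')
      rw [Nat.add_sub_cancel_left] at this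
      exact_mod_cast this
    rw [← hch]
    ring

lemma Sys.one (n : ℕ) : Sys n 1 := by
  refine ⟨1, fun _ => 1, fun _ => 1, le_rfl, ?_, fun _ => Matrix.PosSemidef.one, ?_, ?_⟩
  · rw [Function.ne_iff]
    exact ⟨0, by norm_num⟩
  · have : ((n : ℝ) • (1 : Matrix (Fin 1) (Fin 1) ℝ) - ∑ _i : Fin n, 1) = 0 := by
      rw [Finset.sum_const, Finset.card_fin, Nat.cast_smul_eq_nsmul, sub_self]
    rw [this]
    exact Matrix.PosSemidef.zero
  · have h : ∀ (m : ℕ) (s : Finset (Fin n)), s.card = m →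
        P (fun _ : Fin n => (1 : Matrix (Fin 1) (Fin 1) ℝ)) m s = ((m ! : ℕ) : Matrix _ _ ℝ) := by
      intro m
      induction m with
      | zero => intro s _; simp [P]
      | succ m ih =>
          intro s hs
          rw [P_succ]
          have : ∀ i ∈ s, (1 : Matrix (Fin 1) (Fin 1) ℝ) *
              P (fun _ : Fin n => (1 : Matrix (Fin 1) (Fin 1) ℝ)) m (s.erase i) =
              ((m ! : ℕ) : Matrix (Fin 1) (Fin 1) ℝ) := by
            intro i hi
            rw [one_mul, ih _ (by rw [Finset.card_erase_of_mem hi]; omega)]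
          rw [Finset.sum_congr rfl this, Finset.sum_const, hs, nsmul_eq_mul, ← Nat.cast_mul,
            ← Nat.factorial_succ]
    rw [S_eq_P, h n univ (Finset.card_fin n), Matrix.natCast_mulVec, one_mul]

lemma Sys.pow {n : ℕ} {lam : ℝ} (h : Sys n lam) (k : ℕ) : Sys (n * k) (lam ^ k) := by
  induction k with
  | zero => simpa using Sys.one 0
  | succ k ih =>
      rw [Nat.mul_succ, pow_succ]
      exact ih.mul h

/-- five integer matrices; `1 / 8` of them violate the lower bound for `m = n = 5` -/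
def M5 : Fin 5 → Matrix (Fin 3) (Fin 3) ℤ := ![
  !![5, 0, 7; 0, 7, 0; 7, 0, 10],
  !![5, 0, -7; 0, 7, 0; -7, 0, 10],
  !![7, 0, 0; 0, 5, 7; 0, 7, 10],
  !![7, 0, 0; 0, 5, -7; 0, -7, 10],
  !![16, 0, 0; 0, 16, 0; 0, 0, 0]]

lemma P_M5 : ∀ a : Fin 3, P M5 5 univ a 2 = if a = 2 then -3945088 else 0 := by
  decide +kernel

/-- the real matrices `M5 / 8` -/
noncomputable def A5 (i : Fin 5) : Matrix (Fin 3) (Fin 3) ℝ :=
  ((1 : ℝ) / 8) • (M5 i).map (Int.cast : ℤ → ℝ)

lemma P_smul {ι : Type*} [DecidableEq ι] {d : ℕ} (c : ℝ) (A : ι → Matrix (Fin d) (Fin d) ℝ)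
    (m : ℕ) (s : Finset ι) : P (fun i => c • A i) m s = c ^ m • P A m s := by
  induction m generalizing s with
  | zero => simp [P]
  | succ m ih =>
      rw [P_succ, P_succ, Finset.smul_sum]
      refine Finset.sum_congr rfl fun i _ => ?_
      rw [ih, Matrix.smul_mul, Matrix.mul_smul, smul_smul, pow_succ']

lemma S_A5 : S 5 A5 *ᵥ ![0, 0, 1] = ((-3945088 / 32768 : ℝ)) • ![0, 0, 1] := by
  have h1 : S 5 A5 = ((1 : ℝ) / 8) ^ 5 • (P M5 5 univ).map (Int.cast : ℤ → ℝ) := by
    rw [S_eq_P]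
    change P (fun i => ((1 : ℝ) / 8) • (M5 i).map (Int.cast : ℤ → ℝ)) 5 univ = _
    rw [P_smul]
    congr 1
    exact map_P (Int.castRingHom ℝ).mapMatrix M5 5 univ
  have e0 : P M5 5 univ 0 2 = 0 := (P_M5 0).trans (if_neg (by decide))
  have e1 : P M5 5 univ 1 2 = 0 := (P_M5 1).trans (if_neg (by decide))
  have e2 : P M5 5 univ 2 2 = -3945088 := (P_M5 2).trans (if_pos rfl)
  have key : ∀ a : Fin 3, (((1 : ℝ) / 8) ^ 5 • ((P M5 5 univ).map (Int.cast : ℤ → ℝ) *ᵥ
      ![0, 0, 1])) a = ((1 : ℝ) / 8) ^ 5 * ((P M5 5 univ a 2 : ℤ) : ℝ) := by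
    intro a
    simp [Matrix.mulVec, dotProduct, Fin.sum_univ_three]
  rw [h1, Matrix.smul_mulVec]
  funext a
  rw [key]
  fin_cases a
  · change ((1 : ℝ) / 8) ^ 5 * ((P M5 5 univ 0 2 : ℤ) : ℝ) = _
    rw [e0]; simp
  · change ((1 : ℝ) / 8) ^ 5 * ((P M5 5 univ 1 2 : ℤ) : ℝ) = _
    rw [e1]; simp
  · change ((1 : ℝ) / 8) ^ 5 * ((P M5 5 univ 2 2 : ℤ) : ℝ) = _
    rw [e2]; simp; norm_num

lemma psd_of_rows {d : ℕ} (A : Matrix (Fin d) (Fin d) ℝ) (h : A.IsHermitian)
    (h2 : ∀ x : Fin d → ℝ, 0 ≤ x ⬝ᵥ (A *ᵥ x)) : A.PosSemidef :=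
  Matrix.PosSemidef.of_dotProduct_mulVec_nonneg h (fun x => by simpa using h2 x)

lemma A5_psd (i : Fin 5) : (A5 i).PosSemidef := by
  apply psd_of_rows
  · fin_cases i <;>
    · ext a b
      fin_cases a <;> fin_cases b <;> simp [A5, M5]
  · intro x
    fin_cases i
    · simp [A5, M5, Matrix.mulVec, dotProduct, Fin.sum_univ_three]
      nlinarith [sq_nonneg (5 * x 0 + 7 * x 2), sq_nonneg (x 1), sq_nonneg (x 2)]
    · simp [A5, M5, Matrix.mulVec, dotProduct, Fin.sum_univ_three]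
      nlinarith [sq_nonneg (5 * x 0 - 7 * x 2), sq_nonneg (x 1), sq_nonneg (x 2)]
    · simp [A5, M5, Matrix.mulVec, dotProduct, Fin.sum_univ_three]
      nlinarith [sq_nonneg (5 * x 1 + 7 * x 2), sq_nonneg (x 0), sq_nonneg (x 2)]
    · simp [A5, M5, Matrix.mulVec, dotProduct, Fin.sum_univ_three]
      nlinarith [sq_nonneg (5 * x 1 - 7 * x 2), sq_nonneg (x 0), sq_nonneg (x 2)]
    · simp [A5, M5, Matrix.mulVec, dotProduct, Fin.sum_univ_three]
      nlinarith [sq_nonneg (x 0), sq_nonneg (x 1)]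

lemma A5_sum : ((5 : ℕ) : ℝ) • (1 : Matrix (Fin 3) (Fin 3) ℝ) - ∑ i, A5 i = 0 := by
  ext a b
  fin_cases a <;> fin_cases b <;>
    simp [A5, M5, Fin.sum_univ_five] <;> norm_num

lemma Sys.five : Sys 5 (-3945088 / 32768 / 120) := by
  refine ⟨3, A5, ![0, 0, 1], by norm_num, ?_, A5_psd, ?_, ?_⟩
  · rw [Function.ne_iff]
    exact ⟨2, by simp⟩
  · rw [A5_sum]
    exact Matrix.PosSemidef.zero
  · rw [S_A5]
    congr 1
    norm_num [Nat.factorial]

end Pool.Agent.H11R3.RechtRe
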